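import Pool.Agent.D0H46.CX.F

set_option autoImplicit false

/-!
# MP_cc4361_co, Q1: a positive answer, without commutativity

For every `δ > 0` and `K` there are `k` and `η > 0` such that for every countable abelian group `G`, all
endomorphisms `φ₁, φ₂, φ₃` of `G` with `φ₁ + φ₂ + φ₃ = 0` whose images have finite index at most `K`, and
every `A ⊆ G` with upper Banach density at least `δ`, the sumset `φ₁(A) + φ₂(A) + φ₃(A)` contains a
Bohr-`(k, η)` set.  The endomorphisms need not commute.

Proof.  Let `L = φ₂(G) ∩ φ₃(G)`.  The solutions of `φ₁ a + φ₂ b + φ₃ c = 0` are the triples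
`(a, a + u, a + v)` with `(u, v)` in the group `N = {φ₂ u + φ₃ v = 0}`, which is fibred over `L` with the
fibres `ker φ₂ × ker φ₃`.  For all homomorphisms `p, q : N → G` the density Hales-Jewett theorem for three
letters (`Pool.Agent.Helper903.DHJ`) bounds the mean over `n ∈ N` of the density of
`A ∩ (A - p n) ∩ (A - q n)` from below, for every finitely additive invariant mean on `N`
(`Pool.Agent.D0H46.CX.corner_mean`).  We use the mean composed of means on `L`, `ker φ₂` and `ker φ₃`, and
approximate it by windows in this order.  For a suitable base point one gets a function on a window for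
`a` and two functions on the window of `L` (densities of `A` on the fibres) whose trilinear correlation at
`t = 0` is large and which vanishes for all `t` in the finite set considered outside the sumset.  The
spectral lemma of the starting file for Q2 (`Pool.Agent.R3.CB`, helper3), in a version for two functions,
gives boundedly many characters, and a compactness argument finishes the proof.
-/

open Pointwise

namespace Pool.Agent.Results.MP_cc4361_co.ThreeEndomorphisms

open Filter Topology

/-- `S` is a Bohr-`(k, η)` set: the set of all `g` with `|χ_j(g) - 1| < η` for all `j`, for some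
characters `χ_1, …, χ_k` of the (discrete) group `G`. -/
def IsBohrSet {G : Type*} [AddCommGroup G] (k : ℕ) (η : ℝ) (S : Set G) : Prop :=
  ∃ χ : Fin k → AddChar G Circle, S = {g : G | ∀ j, ‖((χ j g : Circle) : ℂ) - 1‖ < η}

open Classical in
/-- A Følner sequence: nonempty finite sets `F N` with `|F N ∆ (g + F N)| / |F N| → 0` for every `g`. -/
def IsFolner {G : Type*} [AddCommGroup G] (F : ℕ → Finset G) : Prop :=
  (∀ N, (F N).Nonempty) ∧
    ∀ g : G, Tendsto (fun N => ((symmDiff (F N) ((F N).image (fun x => g + x))).card : ℝ) / (F N).card)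
      atTop (𝓝 0)

open Classical in
/-- The upper Banach density: the supremum of `limsup |A ∩ F N| / |F N|` over all Følner sequences `F`. -/
noncomputable def upperBanachDensity {G : Type*} [AddCommGroup G] (A : Set G) : ℝ :=
  sSup {d : ℝ | ∃ F : ℕ → Finset G, IsFolner F ∧
    d = limsup (fun N => (((F N).filter (fun x => x ∈ A)).card : ℝ) / (F N).card) atTop}

/-- Full positive answer to Q1. (`index ≠ 0` means finite index.) -/
theorem result (δ : ℝ) (hδ : 0 < δ) (K : ℕ) : ∃ (k : ℕ) (η : ℝ), 0 < η ∧
    ∀ (G : Type*) [AddCommGroup G] [Countable G] (φ₁ φ₂ φ₃ : G →+ G), φ₁ + φ₂ + φ₃ = 0 →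
      φ₁.range.index ≠ 0 → φ₁.range.index ≤ K → φ₂.range.index ≠ 0 → φ₂.range.index ≤ K →
      φ₃.range.index ≠ 0 → φ₃.range.index ≤ K →
      ∀ A : Set G, δ ≤ upperBanachDensity A →
        ∃ S : Set G, IsBohrSet k η S ∧ S ⊆ φ₁ '' A + φ₂ '' A + φ₃ '' A := by
  obtain ⟨k, η, hη, h⟩ := Pool.Agent.D0H46.CX.main3 (δ / 2) (by positivity) K
  refine ⟨k, η, hη, ?_⟩
  intro G _ _ φ₁ φ₂ φ₃ hsum h1 h1K h2 h2K h3 h3K A hA
  obtain ⟨M, hM⟩ := Pool.Agent.D0H46.CX.mean_of_density A δ hδ hA
  obtain ⟨χ, hχ⟩ := h G φ₁ φ₂ φ₃ (fun x => by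
    have := DFunLike.congr_fun hsum x
    simpa using this) h1 h1K h2 h2K h3 h3K M A hM
  refine ⟨_, ⟨χ, rfl⟩, ?_⟩
  intro g hg
  obtain ⟨a, ha, b, hb, c, hc, hgeq⟩ := hχ g hg
  rw [hgeq]
  exact Set.add_mem_add (Set.add_mem_add (Set.mem_image_of_mem _ ha) (Set.mem_image_of_mem _ hb))
    (Set.mem_image_of_mem _ hc)

end Pool.Agent.Results.MP_cc4361_co.ThreeEndomorphisms
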